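import Mathlib
import Pool.Agent.R233.NA.Final

/-!
# An algebra with exactly two inequivalent Banach algebra norms

The algebra is an algebra of upper triangular matrices over six vertices, whose entries lie in
Banach spaces and their duals. Two of the entries are spaces of the form `ℂ × M` and
`ℂ × M × Z`, and the norms on them which are compatible with the products are
`|s + r μ(m)| + ‖m‖` and `|s + r μ(m)| + ‖m + r T z‖ + ‖z‖`, where `μ : M → ℂ` and `T : Z → ℓ¹` are
discontinuous linear maps; a product `(ℂ × M) × ℓ¹ → ℂ × M × Z` forces `r² = r`. The maps `μ` and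
`T` are constructed by transfinite recursion over `ω₁` together with bounded bilinear maps
`ℓ¹(J) × ℓ¹(J) → M` such that every element of the unit ball of the graph of `μ` is a product of
two elements of norm at most `1`, while finite sums of products remain in the graph: a matrix of
finite rank with vanishing off-diagonal entries has only finitely many nonzero diagonal entries.
-/

set_option autoImplicit false

namespace Pool.Agent.Results.MP_357fb8_an.ExactlyTwoNorms

open Pool.Agent.R233.NA

/-- A Banach algebra norm on the complex algebra `A`: a complete submultiplicative norm. -/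
structure IsBanachAlgebraNorm {A : Type} [Ring A] [Algebra ℂ A] (n : A → ℝ) : Prop where
  eq_zero_iff : ∀ a, n a = 0 ↔ a = 0
  add_le : ∀ a b, n (a + b) ≤ n a + n b
  smul : ∀ (c : ℂ) (a : A), n (c • a) = ‖c‖ * n a
  mul_le : ∀ a b, n (a * b) ≤ n a * n b
  complete : ∀ u : ℕ → A, (∀ ε > 0, ∃ N : ℕ, ∀ i ≥ N, ∀ j ≥ N, n (u i - u j) < ε) →
    ∃ a, ∀ ε > 0, ∃ N : ℕ, ∀ i ≥ N, n (u i - a) < ε

/-- The Banach algebra norms on `A`. -/
def BanachAlgebraNorm (A : Type) [Ring A] [Algebra ℂ A] : Type :=
  {n : A → ℝ // IsBanachAlgebraNorm n}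

/-- Two Banach algebra norms are equivalent if `c n ≤ n' ≤ C n` with `0 < c ≤ C`. -/
def Equivalent {A : Type} [Ring A] [Algebra ℂ A] (n n' : BanachAlgebraNorm A) : Prop :=
  ∃ c C : ℝ, 0 < c ∧ c ≤ C ∧ ∀ a, c * n.1 a ≤ n'.1 a ∧ n'.1 a ≤ C * n.1 a

lemma nonneg {A : Type} [Ring A] [Algebra ℂ A] (n : BanachAlgebraNorm A) (a : A) :
    0 ≤ n.1 a := by
  have h1 := n.2.add_le a ((-1 : ℂ) • a)
  rw [n.2.smul] at h1
  have h2 : a + (-1 : ℂ) • a = 0 := by simp
  rw [h2, (n.2.eq_zero_iff 0).2 rfl] at h1
  simp at h1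
  linarith

/-- Equivalence of Banach algebra norms as a setoid. -/
def normSetoid (A : Type) [Ring A] [Algebra ℂ A] : Setoid (BanachAlgebraNorm A) where
  r := Equivalent
  iseqv := by
    refine ⟨fun n => ⟨1, 1, one_pos, le_rfl, fun a => by simp⟩, ?_, ?_⟩
    · rintro n n' ⟨c, C, hc, hcC, h⟩
      have hC : 0 < C := hc.trans_le hcC
      refine ⟨C⁻¹, c⁻¹, inv_pos.2 hC, inv_anti₀ hc hcC, fun a => ⟨?_, ?_⟩⟩
      · rw [inv_mul_le_iff₀ hC]; exact (h a).2
      · rw [← div_eq_inv_mul, le_div_iff₀ hc, mul_comm]; exact (h a).1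
    · rintro n n' n'' ⟨c, C, hc, hcC, h⟩ ⟨c', C', hc', hcC', h'⟩
      have hC : 0 < C := hc.trans_le hcC
      have hC' : 0 < C' := hc'.trans_le hcC'
      refine ⟨c' * c, C' * C, by positivity, mul_le_mul hcC' hcC hc.le hC'.le,
        fun a => ⟨?_, ?_⟩⟩
      · have h1 := mul_le_mul_of_nonneg_left (h a).1 hc'.le
        linarith [(h' a).1]
      · have h1 := mul_le_mul_of_nonneg_left (h a).2 hC'.le
        linarith [(h' a).2]

/-- `N(A)`: the number of equivalence classes of Banach algebra norms on `A`. -/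
noncomputable def numNorms (A : Type) [Ring A] [Algebra ℂ A] : Cardinal :=
  Cardinal.mk (Quotient (normSetoid A))

/-- There is an algebra with exactly two inequivalent Banach algebra norms. -/
theorem result : ∃ (A : Type) (_ : Ring A) (_ : Algebra ℂ A), numNorms A = 2 := by
  obtain ⟨A, hR, hA, n0, n1, h0, h1, hne, hall⟩ := final
  refine ⟨A, hR, hA, ?_⟩
  have conv : ∀ n : A → ℝ, IsBAlgNorm n → IsBanachAlgebraNorm n := fun n h =>
    ⟨fun a => ⟨h.eq_zero a, fun ha => by rw [ha]; exact h.toIsBNorm.zero'⟩, h.add_le, h.smul,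
      h.mul_le, h.complete⟩
  have conv' : ∀ n : A → ℝ, IsBanachAlgebraNorm n → IsBAlgNorm n := fun n h =>
    { eq_zero := fun a => (h.eq_zero_iff a).1
      add_le := h.add_le
      smul := h.smul
      complete := h.complete
      mul_le := h.mul_le }
  have eqv : ∀ n n' : BanachAlgebraNorm A, Equivalent n n' ↔ NormEquiv n.1 n'.1 := by
    intro n n'
    constructor
    · rintro ⟨c, C, hc, hcC, h⟩
      exact ⟨c, C, hc, hc.trans_le hcC, h⟩
    · rintro ⟨c, C, hc, hC, h⟩
      refine ⟨c, max c C, hc, le_max_left _ _, fun a => ⟨(h a).1, (h a).2.trans ?_⟩⟩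
      exact mul_le_mul_of_nonneg_right (le_max_right _ _) (nonneg n a)
  letI := normSetoid A
  rw [numNorms, Cardinal.mk_eq_two_iff]
  refine ⟨Quotient.mk _ ⟨n0, conv n0 h0⟩, Quotient.mk _ ⟨n1, conv n1 h1⟩, ?_, ?_⟩
  · intro h
    have := Quotient.exact h
    exact hne ((eqv _ _).1 this)
  · rw [Set.eq_univ_iff_forall]
    intro x
    induction x using Quotient.inductionOn with
    | h n =>
      rcases hall n.1 (conv' _ n.2) with h | h
      · left
        exact Quotient.sound ((eqv n ⟨n0, conv n0 h0⟩).2 h)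
      · right
        exact Quotient.sound ((eqv n ⟨n1, conv n1 h1⟩).2 h)

end Pool.Agent.Results.MP_357fb8_an.ExactlyTwoNorms
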